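import Pool.Agent.Q123.AK.Sharp

/-!
# The arithmetic Kakeya conjecture for down-sets: one slope and the best exponent

Let `G` be a finite down-set of `ℕ^d × ℕ^d`, in any dimension `d`, and `r ≥ 1` an integer. Then

`|{a - b}| ≤ |{a + r b}| ^ (log (r + 2) / log (r + 1))`, `(a, b) ∈ G`,

and the exponent is best possible for every `r` and every `d`. It tends to `1` as `r` tends to
infinity, so that the projection form of the arithmetic Kakeya conjecture holds for the down-sets,
and for their images `A ⊆ Γ × Γ` in all abelian groups `Γ` (for instance `Γ = ℤ`), with a single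
slope `r = r(ε)`.
-/

set_option autoImplicit false
open Finset Q123.AK

universe u

namespace Pool.Agent.Results.MP_169869_co.DownSets

/-- **The arithmetic Kakeya conjecture for down-sets.** -/
theorem result :
    -- the inequality for one slope
    (∀ r : ℕ, 1 ≤ r → ∀ (d : ℕ) (G : Finset ((Fin d → ℕ) × (Fin d → ℕ))),
      IsLowerSet (G : Set ((Fin d → ℕ) × (Fin d → ℕ))) →
      ((G.image fun p => fun i => (p.1 i : ℤ) - p.2 i).card : ℝ) ≤
        ((G.image fun p => fun i => p.1 i + r * p.2 i).card : ℝ) ^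
          (Real.log (r + 2) / Real.log (r + 1))) ∧
    -- it is sharp for every slope and every dimension
    (∀ r d : ℕ, 1 ≤ r → 1 ≤ d → ∃ G : Finset ((Fin d → ℕ) × (Fin d → ℕ)),
      IsLowerSet (G : Set ((Fin d → ℕ) × (Fin d → ℕ))) ∧
      (G.image fun p => fun i => (p.1 i : ℤ) - p.2 i).card = (r + 2) ^ d ∧
      (G.image fun p => fun i => p.1 i + r * p.2 i).card = (r + 1) ^ d ∧
      ((G.image fun p => fun i => (p.1 i : ℤ) - p.2 i).card : ℝ) =
        ((G.image fun p => fun i => p.1 i + r * p.2 i).card : ℝ) ^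
          (Real.log (r + 2) / Real.log (r + 1))) ∧
    -- the form of the conjecture, in an arbitrary abelian group, with a single slope
    (∀ ε : ℝ, 0 < ε → ∃ r : ℕ, 1 ≤ r ∧ ∀ (d : ℕ) (G : Finset ((Fin d → ℕ) × (Fin d → ℕ))),
      IsLowerSet (G : Set ((Fin d → ℕ) × (Fin d → ℕ))) →
      ∀ (Γ : Type u) [AddCommGroup Γ] [DecidableEq Γ] (φ : (Fin d → ℕ) →+ Γ),
        Set.InjOn φ (G.image fun p => fun i => p.1 i + r * p.2 i : Finset (Fin d → ℕ)) →
        ((G.image fun p => φ p.1 - φ p.2).card : ℝ) ≤
          ((G.image fun p => φ p.1 + r • φ p.2).card : ℝ) ^ (1 + ε)) := by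
  refine ⟨fun r hr d G hG => main hr d G hG, fun r d hr _ => ⟨ex r d, ex_lower r d, ex_Dif r d,
    ex_Sm r d, ?_⟩, fun ε hε => ?_⟩
  · have h1 := ex_Dif r d
    have h2 := ex_Sm r d
    unfold Dif at h1
    unfold Sm at h2
    rw [h1, h2]
    have h3 := rpow_theta hr
    unfold theta at h3
    push_cast
    rw [← Real.rpow_natCast, ← Real.rpow_natCast, ← Real.rpow_mul (by positivity), mul_comm (d : ℝ),
      Real.rpow_mul (by positivity), h3]
  · obtain ⟨r, hr⟩ := exists_nat_gt (2 / ε)
    have hr0 : (0 : ℝ) < r := lt_trans (by positivity) hr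
    have hr1 : 1 ≤ r := Nat.one_le_iff_ne_zero.2 fun h => by
      rw [h, Nat.cast_zero] at hr0
      exact lt_irrefl _ hr0
    refine ⟨r, hr1, fun d G hG Γ _ _ φ hφ => ?_⟩
    have h1 := group_form hr1 hG φ hφ
    rcases G.eq_empty_or_nonempty with h | h
    · rw [h]
      simp only [image_empty, card_empty, Nat.cast_zero]
      positivity
    · refine h1.trans (Real.rpow_le_rpow_of_exponent_le ?_ ?_)
      · exact_mod_cast card_pos.2 (h.image _)
      · refine (theta_le r hr1).trans ?_
        have : 2 / ((r : ℝ) + 1) ≤ ε := by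
          rw [div_le_iff₀ (by positivity)]
          rw [div_lt_iff₀ hε] at hr
          nlinarith
        linarith

end Pool.Agent.Results.MP_169869_co.DownSets
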