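import Pool.Agent.Q93.MK.Law

set_option autoImplicit false

/-! # The arithmetic Kakeya conjecture: the exact number of choices with small projections

Let `D` be a set of `N` differences. A choice of a position `y(d)` for every `d` gives the set
`{(y(d) + d, y(d))}` with the differences `D`. Let `e(S)` be the optimal exponent for the set `S` of
slopes (`|π₋₁(A)| ≤ max_r |π_r(A)| ^ (1 + ε)` for all `A` iff `ε ≥ e(S)`). For `θ < e(S) / (1 + e(S))`
the maximal number of choices with all projections of size at most `N ^ (1 - θ)` is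
`N ^ ((1 - θ (1 + e(S)) / e(S) + o(1)) N)`, for larger `θ` there is no such choice. -/

open Finset Filter

namespace Pool.Agent.Results.MP_169869_co.ExactCountingLaw

/-- the largest size of a projection of `A` with slope `∞` or in `S` -/
def big (S : Finset ℚ) (A : Finset (ℤ × ℤ)) : ℕ :=
  max (A.image fun p : ℤ × ℤ => p.2).card
    (S.sup fun r => (A.image fun p : ℤ × ℤ => (p.1 : ℚ) + r * (p.2 : ℚ)).card)

/-- the inequality of the conjecture for the slopes in `S` and `∞`, with exponent `1 + ε` -/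
def Holds (S : Finset ℚ) (ε : ℝ) : Prop :=
  ∀ A : Finset (ℤ × ℤ), ((A.image fun p : ℤ × ℤ => p.1 - p.2).card : ℝ) ≤ (big S A : ℝ) ^ (1 + ε)

/-- the optimal exponent `e(S)` -/
noncomputable def opt (S : Finset ℚ) : ℝ := sInf {ε : ℝ | 0 ≤ ε ∧ Holds S ε}

/-- the set of the pairs `(y(d) + d, y(d))` -/
def graph (D : Finset ℤ) (y : D → ℤ) : Finset (ℤ × ℤ) :=
  univ.image fun d : D => ((d : ℤ) + y d, y d)

/-- the number of choices of a position `y(d) ∈ P` for every difference `d ∈ D` such that all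
projections of the set of the pairs `(y(d) + d, y(d))` have at most `K` elements -/
noncomputable def bad (S : Finset ℚ) (D P : Finset ℤ) (K : ℝ) : ℕ :=
  ((Fintype.piFinset fun _ : D => P).filter fun y => (big S (graph D y) : ℝ) ≤ K).card

theorem result :
    -- 1. the optimal exponent
    (∀ S : Finset ℚ, S.Nonempty → (-1 : ℚ) ∉ S → 1 / (S.card : ℝ) ≤ opt S ∧ opt S ≤ 1 ∧
      ∀ ε : ℝ, 0 ≤ ε → (Holds S ε ↔ opt S ≤ ε)) ∧
    -- 2. upper bound for the number of choices with small projections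
    (∀ S : Finset ℚ, S.Nonempty → (-1 : ℚ) ∉ S → ∀ θ δ : ℝ, 0 < θ → 0 < δ → ∀ b : ℕ,
      ∀ᶠ N : ℕ in atTop, ∀ D P : Finset ℤ, D.card = N → P.card ≤ N ^ b →
        (bad S D P ((N : ℝ) ^ (1 - θ)) : ℝ) ≤
          (N : ℝ) ^ ((1 - θ * (1 + opt S) / opt S + δ) * N)) ∧
    -- 3. the same lower bound
    (∀ S : Finset ℚ, S.Nonempty → (-1 : ℚ) ∉ S → ∀ θ δ : ℝ, 0 < θ → 0 < δ →
      θ < opt S / (1 + opt S) →
      ∀ᶠ N : ℕ in atTop, ∃ D P : Finset ℤ, D.card = N ∧ P.card ≤ N ∧
        (N : ℝ) ^ ((1 - θ * (1 + opt S) / opt S - δ) * N) ≤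
          (bad S D P ((N : ℝ) ^ (1 - θ)) : ℝ)) ∧
    -- 4. beyond the threshold there is no such choice
    (∀ S : Finset ℚ, S.Nonempty → (-1 : ℚ) ∉ S → ∀ θ : ℝ, opt S / (1 + opt S) < θ →
      ∀ N : ℕ, 2 ≤ N → ∀ D P : Finset ℤ, D.card = N → bad S D P ((N : ℝ) ^ (1 - θ)) = 0) ∧
    -- 5. the conjecture
    ((∀ ε : ℝ, 0 < ε → ∃ S : Finset ℚ, (-1 : ℚ) ∉ S ∧ Holds S ε) ↔
      ∀ C : ℝ, 0 < C → ∃ S : Finset ℚ, (-1 : ℚ) ∉ S ∧ ∃ θ : ℝ, 0 < θ ∧ θ * C ≤ 1 ∧
        ∃ᶠ N : ℕ in atTop, ∀ D P : Finset ℤ, D.card = N → P.card ≤ N →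
          (bad S D P ((N : ℝ) ^ (1 - θ)) : ℝ) ≤ (N : ℝ) ^ ((1 - C * θ) * N)) := by
  refine ⟨fun S hne hS => ⟨Pool.Agent.Q93.MK.opt_ge hne hS, Pool.Agent.Q93.MK.opt_le_one hne hS,
    fun ε hε => Pool.Agent.Q93.MK.SD_iff_opt hne hS ε hε⟩, ?_, ?_, ?_, ?_⟩
  · intro S hne hS θ δ hθ hδ b
    exact Pool.Agent.Q93.MK.law_upper hS (Pool.Agent.Q93.MK.opt_pos hne hS)
      (Pool.Agent.Q93.MK.SD_opt hne hS) θ hθ b δ hδ
  · intro S hne hS θ δ hθ hδ hθe
    have hepos : 0 < opt S := Pool.Agent.Q93.MK.opt_pos hne hS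
    set e := opt S with he
    have h1 : 1 + 1 / e < 1 / θ := by
      rw [lt_div_iff₀ (by linarith)] at hθe
      have h2 : θ * (1 + 1 / e) < 1 := by
        have : θ * (1 + 1 / e) = θ * (1 + e) / e := by field_simp; ring
        rw [this, div_lt_one hepos]
        exact hθe
      rw [lt_div_iff₀ hθ, mul_comm]
      exact h2
    set η := min (δ / (2 * θ)) ((1 / θ - 1 - 1 / e) / 2) with hη
    have hη0 : 0 < η := lt_min (by positivity) (by linarith)
    have hη1 : η ≤ δ / (2 * θ) := min_le_left _ _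
    have hη2 : η ≤ (1 / θ - 1 - 1 / e) / 2 := min_le_right _ _
    set ε := 1 / (1 / e + η) with hε
    have hε0 : 0 < ε := by positivity
    have hε1 : 1 / ε = 1 / e + η := by rw [hε, one_div_one_div]
    have hεe : ε < e := by
      have h3 : 1 / e < 1 / ε := by rw [hε1]; linarith
      exact (one_div_lt_one_div hepos hε0).1 h3
    have hnot : ¬ Pool.Agent.Q93.MK.SD S ε := by
      rw [Pool.Agent.Q93.MK.SD_iff_opt hne hS ε hε0.le]
      exact not_le.2 hεe
    have hθε : θ * (1 + ε) < ε := by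
      have h3 : θ * (1 + 1 / ε) < 1 := by
        rw [hε1]
        have h4 : 1 + (1 / e + η) < 1 / θ := by linarith
        calc θ * (1 + (1 / e + η)) < θ * (1 / θ) := mul_lt_mul_of_pos_left h4 hθ
          _ = 1 := mul_one_div_cancel hθ.ne'
      calc θ * (1 + ε) = θ * (1 + 1 / ε) * ε := by field_simp; ring
        _ < 1 * ε := mul_lt_mul_of_pos_right h3 hε0
        _ = ε := one_mul ε
    have hmain := Pool.Agent.Q93.MK.law_lower hε0 hnot θ hθ hθε (δ / 2) (by linarith)
    filter_upwards [hmain, eventually_ge_atTop 1] with N hN hN1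
    obtain ⟨D, P, hD, hP, hb⟩ := hN
    refine ⟨D, P, hD, hP, le_trans ?_ hb⟩
    have hNr : (1 : ℝ) ≤ N := by exact_mod_cast hN1
    refine Real.rpow_le_rpow_of_exponent_le hNr (mul_le_mul_of_nonneg_right ?_ (by linarith))
    have h5 : θ * (1 + ε) / ε = θ + θ * (1 / ε) := by field_simp; ring
    have h6 : θ * (1 + e) / e = θ + θ * (1 / e) := by field_simp; ring
    rw [h5, h6, hε1]
    have h7 : θ * η ≤ δ / 2 := by
      rw [le_div_iff₀ (by positivity)] at hη1
      linarith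
    linarith
  · intro S hne hS θ hθ N hN D P hD
    have hepos : 0 < opt S := Pool.Agent.Q93.MK.opt_pos hne hS
    refine Pool.Agent.Q93.MK.law_zero hepos.le (Pool.Agent.Q93.MK.SD_opt hne hS) θ ?_ N hN D P hD
    rw [div_lt_iff₀ (by linarith)] at hθ
    exact hθ
  · constructor
    · intro h C hC
      obtain ⟨S, hS, hH⟩ := h (1 / C) (by positivity)
      refine ⟨S, hS, 1 / C, by positivity, by rw [one_div_mul_cancel hC.ne'], ?_⟩
      have h1 := Pool.Agent.Q93.MK.law_upper hS (show (0 : ℝ) < 1 / C by positivity) hH (1 / C)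
        (by positivity) 1 (1 / C) (by positivity)
      refine Eventually.frequently ?_
      filter_upwards [h1, eventually_ge_atTop 1] with N hN hN1 D P hD hP
      refine (hN D P hD (by rw [pow_one]; exact hP)).trans (le_of_eq ?_)
      congr 2
      field_simp
      ring
    · intro h ε hε
      obtain ⟨S, hS, θ, hθ, hθC, hf⟩ := h ((1 + ε) / ε + 1) (by positivity)
      exact ⟨S, hS, Pool.Agent.Q93.MK.SD_of_count ((1 + ε) / ε + 1) θ hθ hθC hf ε hε (by linarith)⟩

end Pool.Agent.Results.MP_169869_co.ExactCountingLaw
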