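import Pool.Agent.Q93.MK.Slope
import Pool.Agent.TH404.AK.Sdc3

set_option autoImplicit false

/-! # The projection form of the arithmetic Kakeya conjecture with multiplicities

If the slopes in `S` and `∞` satisfy the sums-differences inequality
`|π₋₁(A)| ≤ max_r |π_r(A)| ^ (1 + ε)` for all finite `A ⊂ ℤ × ℤ`, then they satisfy the stronger
inequality `∑_d r_A(d) ^ ε ≤ max_r |π_r(A)| ^ (1 + ε)`, where `r_A(d)` is the number of pairs
`(x, y)` in `A` with `x - y = d`. In particular, if every difference has at least `m`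
representations, then `|π₋₁(A)| ≤ m ^ (-ε) max_r |π_r(A)| ^ (1 + ε)`.

The proof: tensor powers, random linear hashing over `F_p`, and the given inequality for the cells
of the hashing. -/

open Finset

namespace Pool.Agent.Results.MP_169869_co.MomentInequality

/-- the set of differences `π₋₁(A) = {x - y : (x, y) ∈ A}` -/
def diffs (A : Finset (ℤ × ℤ)) : Finset ℤ := A.image fun p => p.1 - p.2

/-- the number of pairs `(x, y)` in `A` with `x - y = d` -/
def rep (A : Finset (ℤ × ℤ)) (d : ℤ) : ℕ := (A.filter fun p => p.1 - p.2 = d).card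

/-- the largest size of a projection of `A` with slope `∞` or in `S` -/
def big (S : Finset ℚ) (A : Finset (ℤ × ℤ)) : ℕ :=
  max (A.image fun p : ℤ × ℤ => p.2).card
    (S.sup fun r => (A.image fun p : ℤ × ℤ => (p.1 : ℚ) + r * (p.2 : ℚ)).card)

theorem result :
    -- 1. the inequality with exponent `1 + ε` improves itself
    (∀ S : Finset ℚ, (-1 : ℚ) ∉ S → ∀ ε : ℝ, 0 ≤ ε →
      ((∀ A : Finset (ℤ × ℤ), ((diffs A).card : ℝ) ≤ (big S A : ℝ) ^ (1 + ε)) ↔
        ∀ A : Finset (ℤ × ℤ), ∑ d ∈ diffs A, (rep A d : ℝ) ^ ε ≤ (big S A : ℝ) ^ (1 + ε))) ∧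
    -- 2. the exponent `ε` of the multiplicities cannot be raised
    (∀ (S : Finset ℚ) (ε t : ℝ), 0 ≤ ε → ε < t → ∃ A : Finset (ℤ × ℤ),
      (big S A : ℝ) ^ (1 + ε) < ∑ d ∈ diffs A, (rep A d : ℝ) ^ t) ∧
    -- 3. an unconditional case
    (∃ S : Finset ℚ, (-1 : ℚ) ∉ S ∧ ∀ A : Finset (ℤ × ℤ),
      ∑ d ∈ diffs A, (rep A d : ℝ) ^ (0.669587 : ℝ) ≤ (big S A : ℝ) ^ (1.669587 : ℝ)) ∧
    -- 4. the conjecture
    ((∀ ε : ℝ, 0 < ε → ∃ S : Finset ℚ, (-1 : ℚ) ∉ S ∧
        ∀ A : Finset (ℤ × ℤ), ((diffs A).card : ℝ) ≤ (big S A : ℝ) ^ (1 + ε)) ↔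
      ∀ ε : ℝ, 0 < ε → ∃ S : Finset ℚ, (-1 : ℚ) ∉ S ∧
        ∀ A : Finset (ℤ × ℤ), ∑ d ∈ diffs A, (rep A d : ℝ) ^ ε ≤ (big S A : ℝ) ^ (1 + ε)) := by
  have h1 : ∀ S : Finset ℚ, (-1 : ℚ) ∉ S → ∀ ε : ℝ, 0 ≤ ε →
      ((∀ A : Finset (ℤ × ℤ), ((diffs A).card : ℝ) ≤ (big S A : ℝ) ^ (1 + ε)) ↔
        ∀ A : Finset (ℤ × ℤ), ∑ d ∈ diffs A, (rep A d : ℝ) ^ ε ≤ (big S A : ℝ) ^ (1 + ε)) :=
    fun S hS ε hε => Pool.Agent.Q93.MK.moment_iff S hS ε hε
  refine ⟨h1, fun S ε t hε ht => Pool.Agent.Q93.MK.exponent_sharp S ε t hε ht, ?_, ?_⟩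
  · obtain ⟨S, hS, h⟩ := Pool.Agent.TH404.AK.sdc3
    refine ⟨S, hS, ?_⟩
    have e : (1.669587 : ℝ) = 1 + 0.669587 := by norm_num
    rw [e]
    refine (h1 S hS 0.669587 (by norm_num)).1 fun A => ?_
    have e2 : (1 : ℝ) + 0.669587 = 1669587 / 1000000 := by norm_num
    rw [e2]
    have c1 : (diffs A).card =
        (A.image (fun p : ℤ × ℤ => (p.1 : ℚ) + (-1) * (p.2 : ℚ))).card := by
      unfold diffs
      rw [← card_image_of_injective _ (Int.cast_injective (α := ℚ)), image_image]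
      congr 1
      refine image_congr fun p _ => ?_
      simp only [Function.comp]
      push_cast
      ring
    have c2 : (A.image fun p : ℤ × ℤ => p.2).card =
        (A.image (fun p : ℤ × ℤ => (p.2 : ℚ))).card := by
      rw [← card_image_of_injective (A.image fun p : ℤ × ℤ => p.2) (Int.cast_injective (α := ℚ)),
        image_image]
      rfl
    rw [c1]
    unfold big
    rw [c2, Nat.cast_max]
    exact h A
  · constructor
    · intro h ε hε
      obtain ⟨S, hS, hA⟩ := h ε hε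
      exact ⟨S, hS, (h1 S hS ε hε.le).1 hA⟩
    · intro h ε hε
      obtain ⟨S, hS, hA⟩ := h ε hε
      exact ⟨S, hS, (h1 S hS ε hε.le).2 hA⟩

end Pool.Agent.Results.MP_169869_co.MomentInequality
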