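import Pool.Agent.Q112.AK.Main
import Pool.Agent.Q112.AK.Example

/-!
# Arithmetic Kakeya for sets closed under weak near unanimity operations

Let `A` be a finite set whose projections carry idempotent `n`-ary operations (`n ≥ 2`), at least one of
them a weak near unanimity operation, such that `A` is closed: for all `a₁, …, aₙ ∈ A` some point of `A`
has all its projections equal to the results of the operations on the projections of the `aₗ`.  Then the
conclusion of the arithmetic Kakeya conjecture holds, with the best possible exponent `1 + 1 / |S|`.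
-/

set_option autoImplicit false

open Finset

namespace Pool.Agent.Results.MP_169869_co.PolymorphismClosed

open Q112.AK (pr sl)

/-- `A` is closed under operations of its projections `f i`: there are `n ≥ 2` and `n`-ary operations
`w i` (one for each projection), idempotent on the projections of `A`, at least one of them a weak near
unanimity operation there (it does not depend on the position of the odd argument `y` among copies of
`x`), such that for all `a₁, …, aₙ ∈ A` there is a point `b` of `A` whose projections are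
`w i (f i a₁, …, f i aₙ)`. -/
def WNUClosed {ι P X : Type*} [DecidableEq X] (f : ι → P → X) (A : Finset P) : Prop :=
  ∃ n : ℕ, 2 ≤ n ∧ ∃ w : ι → (Fin n → X) → X,
    (∀ i, ∀ x ∈ A.image (f i), w i (fun _ => x) = x) ∧
    (∃ i, ∀ x ∈ A.image (f i), ∀ y ∈ A.image (f i), ∀ j l : Fin n,
      w i (Function.update (fun _ => x) j y) = w i (Function.update (fun _ => x) l y)) ∧
    ∀ a : Fin n → P, (∀ l, a l ∈ A) → ∃ b ∈ A, ∀ i, f i b = w i fun l => f i (a l)

/-- the projections `π_r`, `r ∈ S` or `r = ∞` -/
def slopes (S : Finset ℚ) (r : {r : Option ℚ // r ∈ insertNone S}) (a : ℤ × ℤ) : ℚ := sl r.1 a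

/-- the largest of the projections `π_r(A)`, `r ∈ S` or `r = ∞` -/
def big (S : Finset ℚ) (A : Finset (ℤ × ℤ)) : ℕ := (insertNone S).sup fun r => (A.image (sl r)).card

/-- the direction of a slope -/
def dq : Option ℚ → ℚ × ℚ
  | none => (0, 1)
  | some r => (1, r)

/-- integers as rationals -/
def cst (a : ℤ × ℤ) : ℚ × ℚ := (a.1, a.2)

lemma cst_inj : Function.Injective cst := by
  intro a b h
  have h1 := congrArg Prod.fst h
  have h2 := congrArg Prod.snd h
  simp only [cst, Int.cast_inj] at h1 h2
  exact Prod.ext h1 h2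

lemma pr_cst (r : Option ℚ) (a : ℤ × ℤ) : pr (dq r) (cst a) = sl r a := by
  cases r <;> simp [pr, dq, cst, sl]

theorem product {S : Finset ℚ} (hS : S.Nonempty) {A : Finset (ℤ × ℤ)}
    (hA : WNUClosed (slopes S) A) :
    A.card ^ S.card ≤ ∏ r ∈ insertNone S, (A.image (sl r)).card := by
  classical
  obtain ⟨n, hn, w, hidem, ⟨i0, hwnu⟩, hcl⟩ := hA
  have himg : ∀ r, (A.image cst).image (pr (dq r)) = A.image (sl r) := by
    intro r
    rw [image_image]
    exact image_congr fun a _ => pr_cst r a
  have hcard : Fintype.card {r : Option ℚ // r ∈ insertNone S} = S.card + 1 := by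
    rw [Fintype.card_coe, card_insertNone]
  have h1 := Q112.AK.main (ι := {r : Option ℚ // r ∈ insertNone S}) (V := ℚ)
    (by rw [hcard]; have := hS.card_pos; omega) (fun r => dq r.1) ?_ hn w (A.image cst) ?_ ?_ ?_
  · rw [hcard, Nat.add_sub_cancel, card_image_of_injective _ cst_inj] at h1
    refine h1.trans (le_of_eq ?_)
    rw [← prod_coe_sort (insertNone S) fun r => (A.image (sl r)).card]
    exact prod_congr rfl fun r _ => by rw [himg]
  · rintro ⟨r, hr⟩ ⟨t, ht⟩ hrt
    have hne : r ≠ t := fun h => hrt (Subtype.ext h)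
    cases r with
    | none =>
      cases t with
      | none => exact absurd rfl hne
      | some t => simp [dq]
    | some r =>
      cases t with
      | none => simp [dq]
      | some t =>
        simp only [dq]
        intro h
        apply hne
        rw [one_mul, one_mul] at h
        rw [h]
  · intro r x hx
    rw [himg] at hx
    exact hidem r x hx
  · refine ⟨i0, ?_⟩
    intro x hx y hy i j
    rw [himg] at hx hy
    exact hwnu x hx y hy i j
  · intro a ha
    choose g hg using fun l => mem_image.1 (ha l)
    obtain ⟨b, hb, hbb⟩ := hcl g fun l => (hg l).1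
    refine ⟨cst b, mem_image_of_mem _ hb, fun r => ?_⟩
    have h2 := hbb r
    simp only [slopes] at h2
    rw [pr_cst, h2]
    congr 1
    ext1 l
    rw [← (hg l).2, pr_cst]

theorem upper {S : Finset ℚ} (hS : S.Nonempty) {A : Finset (ℤ × ℤ)}
    (hA : WNUClosed (slopes S) A) :
    (A.card : ℝ) ≤ (big S A : ℝ) ^ (1 + 1 / (S.card : ℝ)) := by
  have h1 := product hS hA
  have hS0 : (0 : ℝ) < S.card := by exact_mod_cast hS.card_pos
  have h2 : A.card ^ S.card ≤ big S A ^ (S.card + 1) := by
    refine h1.trans ?_
    refine (prod_le_pow_card _ _ (big S A) fun r hr => ?_).trans (le_of_eq ?_)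
    · exact le_sup (f := fun r => (A.image (sl r)).card) hr
    · rw [card_insertNone]
  have h3 : ((A.card : ℝ) ^ (S.card : ℝ)) ≤ ((big S A : ℝ) ^ (1 + 1 / (S.card : ℝ))) ^ (S.card : ℝ) := by
    rw [← Real.rpow_mul (Nat.cast_nonneg _)]
    have : (1 + 1 / (S.card : ℝ)) * (S.card : ℝ) = ((S.card + 1 : ℕ) : ℝ) := by
      push_cast
      field_simp
    rw [this, Real.rpow_natCast, Real.rpow_natCast]
    exact_mod_cast h2
  exact (Real.rpow_le_rpow_iff (Nat.cast_nonneg _) (Real.rpow_nonneg (Nat.cast_nonneg _) _) hS0).1 h3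

/-- the sets which show that the exponent is optimal -/
theorem lower (S : Finset ℚ) (hS : (-1 : ℚ) ∉ S) (m n : ℕ) (hm : 0 < m) (hn : 2 ≤ n)
    (τ : (Fin n → Fin m) → Fin m) (hidem : ∀ x, τ (fun _ => x) = x)
    (hwnu : ∀ i j : Fin n, ∀ x y, τ (Function.update (fun _ => x) i y) = τ (Function.update (fun _ => x) j y)) :
    ∃ A : Finset (ℤ × ℤ), WNUClosed (slopes S) A ∧ A.card = m ^ (S.card + 1) ∧
      (A.image (sl (some (-1)))).card = m ^ (S.card + 1) ∧
      ∀ r ∈ insertNone S, (A.image (sl r)).card = m ^ S.card := by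
  have hT : some (-1 : ℚ) ∉ insertNone S := by
    rw [some_mem_insertNone]; exact hS
  obtain ⟨A, w, h1, h2, h3, h4, h5, h6⟩ := Q112.AK.example_exists (insertNone S) hT m n hm τ hidem hwnu
  rw [card_insertNone] at h4 h5
  refine ⟨A, ⟨n, hn, fun r => w r.1, fun r x hx => h1 r.1 r.2 x hx, ?_, ?_⟩, h4, h5, ?_⟩
  · exact ⟨⟨none, none_mem_insertNone⟩, fun x hx y hy => h2 none none_mem_insertNone x hx y hy⟩
  · intro a ha
    obtain ⟨b, hb, hbb⟩ := h3 a ha
    exact ⟨b, hb, fun r => hbb r.1 r.2⟩
  · intro r hr
    rw [h6 r hr, card_insertNone, Nat.add_sub_cancel]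

theorem lower_min (S : Finset ℚ) (hS : (-1 : ℚ) ∉ S) (m : ℕ) (hm : 0 < m) :
    ∃ A : Finset (ℤ × ℤ), WNUClosed (slopes S) A ∧ A.card = m ^ (S.card + 1) ∧
      (A.image (sl (some (-1)))).card = m ^ (S.card + 1) ∧
      ∀ r ∈ insertNone S, (A.image (sl r)).card = m ^ S.card :=
  lower S hS m 2 hm (by norm_num) (fun x => min (x 0) (x 1)) (fun x => min_self x) (by
    intro i j x y
    fin_cases i <;> fin_cases j <;> simp [Function.update, min_comm])

/-- **Arithmetic Kakeya for sets closed under weak near unanimity operations.** -/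
theorem result :
    -- (1) the inequality, in any vector space over the rationals
    (∀ (V ι : Type) [AddCommGroup V] [Module ℚ V] [DecidableEq V] [Fintype ι] (s : ι → ℚ × ℚ),
      2 ≤ Fintype.card ι → (∀ i j, i ≠ j → (s i).1 * (s j).2 ≠ (s j).1 * (s i).2) →
      ∀ A : Finset (V × V), WNUClosed (fun i (a : V × V) => (s i).1 • a.1 + (s i).2 • a.2) A →
        A.card ^ (Fintype.card ι - 1) ≤
          ∏ i, (A.image fun a => (s i).1 • a.1 + (s i).2 • a.2).card) ∧
    -- (2) the conclusion of the conjecture
    (∀ S : Finset ℚ, S.Nonempty → ∀ A : Finset (ℤ × ℤ), WNUClosed (slopes S) A →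
      (A.card : ℝ) ≤ (big S A : ℝ) ^ (1 + 1 / (S.card : ℝ))) ∧
    (∀ S : Finset ℚ, (-1 : ℚ) ∉ S → ∀ ε : ℝ, 0 < ε →
      ((∀ A : Finset (ℤ × ℤ), WNUClosed (slopes S) A →
        ((A.image (sl (some (-1)))).card : ℝ) ≤ (big S A : ℝ) ^ (1 + ε)) ↔ 1 ≤ ε * S.card)) ∧
    -- (3) the sets which show that the exponent is optimal
    (∀ S : Finset ℚ, (-1 : ℚ) ∉ S → ∀ m : ℕ, 0 < m →
      ∃ A : Finset (ℤ × ℤ), WNUClosed (slopes S) A ∧ A.card = m ^ (S.card + 1) ∧
        (A.image (sl (some (-1)))).card = m ^ (S.card + 1) ∧
        ∀ r ∈ insertNone S, (A.image (sl r)).card = m ^ S.card) := by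
  refine ⟨?_, fun S hS A hA => upper hS hA, ?_, lower_min⟩
  · intro V ι _ _ _ _ s hι hind A hA
    obtain ⟨n, hn, w, hidem, hwnu, hcl⟩ := hA
    exact Q112.AK.main hι s hind hn w A hidem hwnu hcl
  · intro S hS ε hε
    constructor
    · intro H
      by_contra hlt
      push Not at hlt
      obtain ⟨A, hA, _, h2, h3⟩ := lower_min S hS 2 (by norm_num)
      have h4 := H A hA
      have hbig : big S A = 2 ^ S.card := by
        refine le_antisymm (Finset.sup_le fun r hr => (h3 r hr).le) ?_
        rw [← h3 none none_mem_insertNone]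
        exact le_sup (f := fun r => (A.image (sl r)).card) none_mem_insertNone
      rw [h2, hbig] at h4
      push_cast at h4
      rw [← Real.rpow_natCast (2 : ℝ) S.card, ← Real.rpow_mul (by norm_num), ← Real.rpow_natCast,
        Real.rpow_le_rpow_left_iff (by norm_num)] at h4
      push_cast at h4
      nlinarith
    · intro h A hA
      rcases S.eq_empty_or_nonempty with rfl | hSn
      · simp at h
        exact absurd h (by norm_num)
      · have hS0 : (0 : ℝ) < S.card := by exact_mod_cast hSn.card_pos
        rcases A.eq_empty_or_nonempty with rfl | hAn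
        · simp only [image_empty, card_empty, Nat.cast_zero]
          exact Real.rpow_nonneg (Nat.cast_nonneg _) _
        · have h1 : (1 : ℝ) ≤ big S A := by
            have : 1 ≤ big S A := by
              refine le_trans ?_ (le_sup (f := fun r => (A.image (sl r)).card) none_mem_insertNone)
              exact (hAn.image _).card_pos
            exact_mod_cast this
          have h2 : ((A.image (sl (some (-1)))).card : ℝ) ≤ A.card := by exact_mod_cast card_image_le
          refine (h2.trans (upper hSn hA)).trans ?_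
          refine Real.rpow_le_rpow_of_exponent_le h1 ?_
          have : 1 / (S.card : ℝ) ≤ ε := by
            rw [div_le_iff₀ hS0]
            exact h
          linarith

end Pool.Agent.Results.MP_169869_co.PolymorphismClosed
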